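import Pool.Agent.Helper87.GE.Defs
import Pool.Agent.Helper18.KD.LowerMass

/-!
# GE block E9: dimension from an almost everywhere bound for the masses
-/

set_option autoImplicit false
open MeasureTheory Set Filter Topology
open Pool.Agent.Helper78.KD
open Pool.Agent.Helper18.KD (par idx pt)

namespace Pool.Agent.GE

/-- the measure of an interval -/
private theorem int_leE {T : Tr} {m : ℕ → ℕ → ℝ} (hm : Ms T m) {k : ℕ} {δ R : ℝ} (hδ : 0 ≤ δ) (hR : 0 ≤ R)
    (hhi : ∀ i, i < T.N k → T.len k i ≤ δ) {G : Set ℝ}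
    (hG : ∀ w ∈ G, w ∈ Ico (0 : ℝ) 1 ∧ m k (idx T m k w) ≤ T.len k (idx T m k w) * R)
    {α β : ℝ} (hαβ : α ≤ β) :
    volume (G ∩ pt T m ⁻¹' Icc α β) ≤ ENNReal.ofReal (R * ((β - α) + 2 * δ)) := by
  classical
  set A := (Finset.range (T.N k)).filter (fun i => T.t k i ≤ β ∧ α ≤ T.t k (i + 1)) with hA
  have h1 : G ∩ pt T m ⁻¹' Icc α β ⊆
      ⋃ i ∈ A.filter (fun i => m k i ≤ T.len k i * R), {w : ℝ | w ∈ Ico (0 : ℝ) 1 ∧ idx T m k w = i} := by
    rintro w ⟨hw, hx⟩
    obtain ⟨hw, hb⟩ := hG w hw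
    simp only [Set.mem_iUnion]
    have h2 := Pool.Agent.Helper18.KD.pt_mem hm.zero hm.nn hm.sum k hw.1 hw.2
    refine ⟨idx T m k w, Finset.mem_filter.2 ⟨?_, hb⟩, hw, rfl⟩
    rw [hA, Finset.mem_filter, Finset.mem_range]
    exact ⟨Pool.Agent.Helper18.KD.idx_lt k w, h2.1.trans hx.2, hx.1.trans h2.2⟩
  refine (measure_mono h1).trans ((measure_biUnion_finset_le _ _).trans ?_)
  refine (Finset.sum_le_sum fun i _ => Pool.Agent.Helper18.KD.vol_idx hm.zero hm.sum k i).trans ?_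
  rw [← ENNReal.ofReal_sum_of_nonneg fun i hi => hm.nn _ i (by
    have := (Finset.mem_filter.1 (Finset.mem_filter.1 hi).1).1
    exact Finset.mem_range.1 this)]
  apply ENNReal.ofReal_le_ofReal
  have h3 := Pool.Agent.Helper18.KD.len_meet T k hαβ hδ hhi
  rw [← hA] at h3
  calc ∑ i ∈ A.filter (fun i => m k i ≤ T.len k i * R), m k i
      ≤ ∑ i ∈ A.filter (fun i => m k i ≤ T.len k i * R), R * T.len k i := by
        refine Finset.sum_le_sum fun i hi => ?_
        have h4 := (Finset.mem_filter.1 hi).2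
        linarith
    _ ≤ ∑ i ∈ A, R * T.len k i := by
        refine Finset.sum_le_sum_of_subset_of_nonneg (Finset.filter_subset _ _) fun i hi _ => ?_
        have := (Pool.Agent.Helper18.KD.len_pos T k (Finset.mem_range.1 (Finset.mem_filter.1 hi).1)).le
        positivity
    _ = R * ∑ i ∈ A, T.len k i := by rw [Finset.mul_sum]
    _ ≤ _ := mul_le_mul_of_nonneg_left h3 hR

/-- quantiles of good points -/
private def gdE (T : Tr) (m : ℕ → ℕ → ℝ) (nk : ℕ → ℕ) (I' : ℝ) (k₁ : ℕ) : Set ℝ :=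
  {w | w ∈ Ico (0 : ℝ) 1 ∧ ∀ k, k₁ ≤ k → m k (idx T m k w) ≤ T.len k (idx T m k w) * Real.exp (nk k * I')}

private theorem gdE_meas (T : Tr) (m : ℕ → ℕ → ℝ) (nk : ℕ → ℕ) (I' : ℝ) (k₁ : ℕ) : MeasurableSet (gdE T m nk I' k₁) := by
  have h1 : gdE T m nk I' k₁ = Ico (0 : ℝ) 1 ∩ ⋂ k, ⋂ (_ : k₁ ≤ k),
      (idx T m k) ⁻¹' {i | m k i ≤ T.len k i * Real.exp (nk k * I')} := by
    ext w
    simp only [gdE, Set.mem_ofPred_eq, Set.mem_inter_iff, Set.mem_iInter, Set.mem_preimage]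
  rw [h1]
  exact measurableSet_Ico.inter (MeasurableSet.iInter fun k => MeasurableSet.iInter fun _ =>
    Pool.Agent.Helper18.KD.idx_meas k (MeasurableSet.of_discrete))

/-- one exponent -/
private theorem lower_one (T : Tr) (m : ℕ → ℕ → ℝ) (hm : Ms T m) (nk : ℕ → ℕ) (hn : Tendsto nk atTop atTop)
    (hn1 : ∀ k, nk k ≤ nk (k + 1)) (hnr : ∀ ε : ℝ, 0 < ε → ∀ᶠ k in atTop, (nk (k + 1) : ℝ) ≤ (1 + ε) * nk k) {ℓ₁ C I : ℝ}
    (hℓ₁ : 0 < ℓ₁) (hC : 0 < C) (hI : 0 ≤ I)
    (hhi : ∀ k i, i < T.N k → T.len k i ≤ C * Real.exp (-(nk k * ℓ₁))) (E : Set ℝ)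
    (hae : ∀ᵐ w ∂(volume.restrict (Ico (0 : ℝ) 1)), pt T m w ∈ E ∧ ∀ I' > I, ∀ᶠ k in atTop,
      m k (idx T m k w) ≤ T.len k (idx T m k w) * Real.exp (nk k * I'))
    {s : ℝ} (hs : 0 < s) (hs1 : s < 1 - I / ℓ₁) : ENNReal.ofReal s ≤ dimH E := by
  -- the parameters
  have hIs : I < (1 - s) * ℓ₁ := by
    have h1 : I / ℓ₁ < 1 - s := by linarith
    exact (div_lt_iff₀ hℓ₁).1 h1
  obtain ⟨I', hI', hI's⟩ := exists_between hIs
  have hI'0 : 0 < I' := lt_of_le_of_lt hI hI'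
  have hI'ℓ : I' < ℓ₁ := by nlinarith
  set ε : ℝ := (1 - s) * ℓ₁ / I' - 1 with hε
  have hε0 : 0 < ε := by
    rw [hε, sub_pos, lt_div_iff₀ hI'0]
    linarith
  have hεI : (1 + ε) * I' = (1 - s) * ℓ₁ := by
    rw [hε]
    field_simp
    ring
  obtain ⟨k₀, hk₀⟩ := eventually_atTop.1 (hnr ε hε0)
  have hmono : Monotone nk := monotone_nat_of_le_succ hn1
  have hr : (0 : ENNReal) < volume.restrict (Ico (0 : ℝ) 1) (Set.univ : Set ℝ) := by
    rw [Measure.restrict_apply_univ, Real.volume_Ico, sub_zero, ENNReal.ofReal_one]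
    exact one_pos
  -- a good set of positive measure
  obtain ⟨k₁, hk₁0, hG0⟩ : ∃ k₁, k₀ ≤ k₁ ∧ volume (gdE T m nk I' k₁) ≠ 0 := by
    by_contra hcon
    push Not at hcon
    have hnull : volume (⋃ n : ℕ, gdE T m nk I' (n + k₀)) = 0 := by
      rw [measure_iUnion_null_iff]
      exact fun n => hcon (n + k₀) (by omega)
    have h1 : ∀ᵐ w ∂(volume.restrict (Ico (0 : ℝ) 1)), w ∈ ⋃ n : ℕ, gdE T m nk I' (n + k₀) := by
      filter_upwards [hae, ae_restrict_mem measurableSet_Ico] with w hw hw1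
      obtain ⟨k₂, hk₂⟩ := eventually_atTop.1 (hw.2 I' hI')
      rw [Set.mem_iUnion]
      exact ⟨k₂, hw1, fun k hk => hk₂ k (by omega)⟩
    have h2 : ∀ᵐ w ∂(volume.restrict (Ico (0 : ℝ) 1)), w ∉ ⋃ n : ℕ, gdE T m nk I' (n + k₀) := by
      refine ae_restrict_of_ae ?_
      exact measure_eq_zero_iff_ae_notMem.1 hnull
    have h3 : ∀ᵐ w ∂(volume.restrict (Ico (0 : ℝ) 1)), False := by
      filter_upwards [h1, h2] with w a b
      exact b a
    rw [ae_iff] at h3
    simp only [not_false_eq_true, Set.ofPred_true] at h3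
    exact hr.ne' h3
  set G := gdE T m nk I' k₁ with hG
  have hGm : MeasurableSet G := gdE_meas T m nk I' k₁
  set X := pt T m with hX
  have hXm : Measurable X := Pool.Agent.Helper18.KD.pt_mono.measurable
  set ν : Measure ℝ := (volume.restrict G).map X with hν
  have hνIcc : ∀ α β : ℝ, ν (Icc α β) = volume (G ∩ X ⁻¹' Icc α β) := by
    intro α β
    rw [hν, Measure.map_apply hXm measurableSet_Icc, Measure.restrict_apply (hXm measurableSet_Icc), Set.inter_comm]
  have hint : ∀ k, k₁ ≤ k → ∀ {α β : ℝ}, α ≤ β → ν (Icc α β) ≤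
      ENNReal.ofReal (Real.exp (nk k * I') * ((β - α) + 2 * (C * Real.exp (-(nk k * ℓ₁))))) := by
    intro k hk α β hαβ
    rw [hνIcc]
    exact int_leE hm (by positivity) (by positivity) (hhi k) (fun w hw => ⟨hw.1, hw.2 k hk⟩) hαβ
  -- the constant
  set D : ℝ := 3 * C ^ (1 - s) with hD
  have hD0 : 0 < D := by positivity
  set r₀ : ℝ := C * Real.exp (-(nk k₁ * ℓ₁)) / 2 with hr₀
  have hr₀0 : 0 < r₀ := by positivity
  have hs1' : s < 1 := by
    have : 0 ≤ I / ℓ₁ := div_nonneg hI hℓ₁.le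
    linarith
  -- Frostman bound for intervals
  have hfr : ∀ α β : ℝ, α < β → β - α ≤ r₀ → ν (Icc α β) ≤ ENNReal.ofReal (D * (β - α) ^ s) := by
    intro α β hαβ hle
    set δ := β - α with hδ
    have hδ0 : 0 < δ := by rw [hδ]; linarith
    have hex : ∃ k, C * Real.exp (-(nk k * ℓ₁)) ≤ δ := by
      have h1 : Tendsto (fun k : ℕ => (nk k : ℝ) * ℓ₁) atTop atTop :=
        (tendsto_natCast_atTop_atTop.comp hn).atTop_mul_const hℓ₁
      obtain ⟨k, hk⟩ := (h1.eventually_ge_atTop (Real.log (C / δ))).exists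
      refine ⟨k, ?_⟩
      have h3 : Real.exp (-(nk k * ℓ₁)) ≤ Real.exp (-Real.log (C / δ)) := Real.exp_le_exp.2 (by linarith)
      rw [Real.exp_neg (Real.log (C / δ)), Real.exp_log (by positivity)] at h3
      calc C * Real.exp (-(nk k * ℓ₁)) ≤ C * (C / δ)⁻¹ := by gcongr
        _ = δ := by field_simp
    classical
    set k := Nat.find hex with hk
    have hk2 : C * Real.exp (-(nk k * ℓ₁)) ≤ δ := Nat.find_spec hex
    have hk3 : ∀ j, j < k → δ < C * Real.exp (-(nk j * ℓ₁)) := fun j hj => not_le.1 (Nat.find_min hex hj)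
    have hk4 : k₁ < k := by
      by_contra hlt
      push Not at hlt
      have h1 : C * Real.exp (-(nk k₁ * ℓ₁)) ≤ C * Real.exp (-(nk k * ℓ₁)) := by
        have h2 : (nk k : ℝ) ≤ nk k₁ := by exact_mod_cast hmono hlt
        have h3 : Real.exp (-(nk k₁ * ℓ₁)) ≤ Real.exp (-(nk k * ℓ₁)) := Real.exp_le_exp.2 (by nlinarith)
        exact mul_le_mul_of_nonneg_left h3 hC.le
      have h4 : (0 : ℝ) < C * Real.exp (-(nk k₁ * ℓ₁)) := by positivity
      rw [hr₀] at hle
      linarith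
    obtain ⟨j, hj⟩ : ∃ j, k = j + 1 := ⟨k - 1, by omega⟩
    have hkj := hk3 j (by omega)
    have h1 : (nk j : ℝ) * ℓ₁ ≤ Real.log (C / δ) := by
      rw [Real.le_log_iff_exp_le (by positivity), le_div_iff₀ hδ0]
      have h2 : Real.exp (nk j * ℓ₁) * (C * Real.exp (-(nk j * ℓ₁))) = C := by
        rw [mul_left_comm, ← Real.exp_add, add_neg_cancel, Real.exp_zero, mul_one]
      have h3 : Real.exp (nk j * ℓ₁) * δ ≤ Real.exp (nk j * ℓ₁) * (C * Real.exp (-(nk j * ℓ₁))) :=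
        mul_le_mul_of_nonneg_left hkj.le (Real.exp_pos _).le
      linarith
    have h2 : (nk k : ℝ) * I' ≤ (1 - s) * Real.log (C / δ) := by
      have h3 := hk₀ j (by omega)
      rw [← hj] at h3
      calc (nk k : ℝ) * I' ≤ (1 + ε) * nk j * I' := mul_le_mul_of_nonneg_right h3 hI'0.le
        _ = nk j * ((1 + ε) * I') := by ring
        _ = (1 - s) * (nk j * ℓ₁) := by rw [hεI]; ring
        _ ≤ _ := mul_le_mul_of_nonneg_left h1 (by linarith)
    have h4 : Real.exp (nk k * I') ≤ C ^ (1 - s) * δ ^ (-(1 - s)) := by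
      have h6 : C ^ (1 - s) * δ ^ (-(1 - s)) = Real.exp ((1 - s) * Real.log (C / δ)) := by
        rw [Real.rpow_neg hδ0.le, ← Real.inv_rpow hδ0.le, ← Real.mul_rpow hC.le (by positivity),
          Real.rpow_def_of_pos (by positivity), Real.log_mul (by positivity) (by positivity),
          Real.log_div (by positivity) (by positivity), Real.log_inv]
        congr 1
        ring
      rw [h6, Real.exp_le_exp]
      exact h2
    refine (hint k hk4.le hαβ.le).trans (ENNReal.ofReal_le_ofReal ?_)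
    calc Real.exp (nk k * I') * (δ + 2 * (C * Real.exp (-(nk k * ℓ₁))))
        ≤ (C ^ (1 - s) * δ ^ (-(1 - s))) * (δ + 2 * δ) := by gcongr
      _ = D * (δ ^ (-(1 - s)) * δ ^ (1 : ℝ)) := by rw [hD, Real.rpow_one]; ring
      _ = D * δ ^ s := by
        rw [← Real.rpow_add hδ0]
        congr 2
        ring
  -- points
  have hpt : ∀ x : ℝ, ν {x} = 0 := by
    intro x
    have h1 : ∀ k, k₁ ≤ k → ν {x} ≤ ENNReal.ofReal (2 * C * Real.exp (-((ℓ₁ - I') * nk k))) := by
      intro k hk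
      have h2 := hint k hk (le_refl x)
      rw [← Set.Icc_self x]
      refine h2.trans (ENNReal.ofReal_le_ofReal (le_of_eq ?_))
      rw [sub_self, zero_add]
      have h3 : Real.exp (nk k * I') * Real.exp (-(nk k * ℓ₁)) = Real.exp (-((ℓ₁ - I') * nk k)) := by
        rw [← Real.exp_add]
        congr 1
        ring
      calc Real.exp (nk k * I') * (2 * (C * Real.exp (-(nk k * ℓ₁)))) =
            2 * C * (Real.exp (nk k * I') * Real.exp (-(nk k * ℓ₁))) := by ring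
        _ = _ := by rw [h3]
    have h4 : Tendsto (fun k : ℕ => ENNReal.ofReal (2 * C * Real.exp (-((ℓ₁ - I') * nk k)))) atTop (𝓝 0) := by
      rw [← ENNReal.ofReal_zero]
      apply ENNReal.tendsto_ofReal
      have h5 : Tendsto (fun k : ℕ => (ℓ₁ - I') * (nk k : ℝ)) atTop atTop :=
        (tendsto_natCast_atTop_atTop.comp hn).const_mul_atTop (by linarith)
      have h6 := (Real.tendsto_exp_neg_atTop_nhds_zero.comp h5).const_mul (2 * C)
      rw [mul_zero] at h6
      exact h6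
    exact le_antisymm (ge_of_tendsto h4 (eventually_atTop.2 ⟨k₁, h1⟩)) zero_le
  -- the comparison with the Hausdorff measure
  set c : ENNReal := ENNReal.ofReal D with hc
  have hc0 : c ≠ 0 := by
    rw [hc, Ne, ENNReal.ofReal_eq_zero, not_le]
    exact hD0
  have hct : c ≠ ⊤ := ENNReal.ofReal_ne_top
  have hle : c⁻¹ • ν ≤ Measure.hausdorffMeasure s := by
    refine Measure.le_hausdorffMeasure _ _ (ENNReal.ofReal r₀) (ENNReal.ofReal_pos.2 hr₀0) fun t ht => ?_
    rw [Measure.smul_apply, smul_eq_mul, ENNReal.inv_mul_le_iff hc0 hct]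
    rcases t.eq_empty_or_nonempty with he | hne
    · rw [he, measure_empty]
      exact zero_le
    have htop : Metric.ediam t ≠ ⊤ := ne_top_of_le_ne_top ENNReal.ofReal_ne_top ht
    have hbd : Bornology.IsBounded t := Metric.isBounded_iff_ediam_ne_top.2 htop
    obtain ⟨x, hx⟩ := hne
    have hsub : t ⊆ Icc (sInf t) (sSup t) := fun y hy => ⟨csInf_le hbd.bddBelow hy, le_csSup hbd.bddAbove hy⟩
    have hdiam : Metric.ediam t = ENNReal.ofReal (sSup t - sInf t) := by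
      rw [← ENNReal.ofReal_toReal htop]
      congr 1
      exact Real.diam_eq hbd
    have hle2 : sInf t ≤ sSup t := (hsub hx).1.trans (hsub hx).2
    rcases hle2.eq_or_lt with h | h
    · have h1 : t ⊆ {x} := by
        intro y hy
        have h2 := hsub hy
        have h3 := hsub hx
        rw [Set.mem_singleton_iff]
        rw [← h] at h2 h3
        linarith [h2.1, h2.2, h3.1, h3.2]
      rw [measure_mono_null h1 (hpt x)]
      exact zero_le
    · refine (measure_mono hsub).trans ?_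
      have hr : sSup t - sInf t ≤ r₀ := by
        rw [hdiam] at ht
        exact (ENNReal.ofReal_le_ofReal_iff hr₀0.le).1 ht
      refine (hfr _ _ h hr).trans (le_of_eq ?_)
      rw [hdiam, hc, ENNReal.ofReal_rpow_of_pos (by linarith), ← ENNReal.ofReal_mul hD0.le]
  -- positivity
  have hνE : ν E ≠ 0 := by
    intro h0
    rw [← measure_toMeasurable] at h0
    rw [hν, Measure.map_apply hXm (measurableSet_toMeasurable _ _),
      Measure.restrict_apply (hXm (measurableSet_toMeasurable _ _))] at h0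
    have h1 : ∀ᵐ w ∂(volume : Measure ℝ), w ∉ X ⁻¹' toMeasurable ν E ∩ G := measure_eq_zero_iff_ae_notMem.1 h0
    have h2 : ∀ᵐ w ∂(volume : Measure ℝ), w ∈ Ico (0 : ℝ) 1 → X w ∈ E := by
      rw [ae_restrict_iff' measurableSet_Ico] at hae
      filter_upwards [hae] with w hw hw1
      exact (hw hw1).1
    refine hG0 (measure_eq_zero_iff_ae_notMem.2 ?_)
    filter_upwards [h1, h2] with w a b hw
    exact a ⟨subset_toMeasurable _ _ (b hw.1), hw⟩
  have hH : Measure.hausdorffMeasure s E ≠ 0 := by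
    intro h0
    have h1 := hle E
    rw [h0, Measure.smul_apply, smul_eq_mul, nonpos_iff_eq_zero, mul_eq_zero] at h1
    rcases h1 with h1 | h1
    · exact hct (ENNReal.inv_eq_zero.1 h1)
    · exact hνE h1
  have hcoe : ((s.toNNReal : NNReal) : ℝ) = s := Real.coe_toNNReal _ hs.le
  rw [← hcoe] at hH
  exact le_dimH_of_hausdorffMeasure_ne_zero hH

/-- E9: dimension from an almost everywhere bound for the masses -/
theorem lower_aeE (T : Tr) (m : ℕ → ℕ → ℝ) (hm : Ms T m) (nk : ℕ → ℕ) (hn : Tendsto nk atTop atTop)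
    (hn1 : ∀ k, nk k ≤ nk (k + 1)) (hnr : ∀ ε : ℝ, 0 < ε → ∀ᶠ k in atTop, (nk (k + 1) : ℝ) ≤ (1 + ε) * nk k) {ℓ₁ C I : ℝ}
    (hℓ₁ : 0 < ℓ₁) (hC : 0 < C) (hI : 0 ≤ I)
    (hhi : ∀ k i, i < T.N k → T.len k i ≤ C * Real.exp (-(nk k * ℓ₁))) (E : Set ℝ)
    (hae : ∀ᵐ w ∂(volume.restrict (Ico (0 : ℝ) 1)), pt T m w ∈ E ∧ ∀ I' > I, ∀ᶠ k in atTop,
      m k (idx T m k w) ≤ T.len k (idx T m k w) * Real.exp (nk k * I')) :
    ENNReal.ofReal (1 - I / ℓ₁) ≤ dimH E := by
  rcases le_or_gt (1 - I / ℓ₁) 0 with hs | hs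
  · rw [ENNReal.ofReal_eq_zero.2 hs]
    exact zero_le
  have h1 : Tendsto (fun s : ℝ => ENNReal.ofReal s) (𝓝[<] (1 - I / ℓ₁)) (𝓝 (ENNReal.ofReal (1 - I / ℓ₁))) :=
    (ENNReal.continuous_ofReal.tendsto _).mono_left nhdsWithin_le_nhds
  refine le_of_tendsto h1 ?_
  have h2 : ∀ᶠ s in 𝓝[<] (1 - I / ℓ₁), 0 < s ∧ s < 1 - I / ℓ₁ := by
    have := Ioo_mem_nhdsLT hs
    filter_upwards [this] with s h
    exact h
  filter_upwards [h2] with s h
  exact lower_one T m hm nk hn hn1 hnr hℓ₁ hC hI hhi E hae h.1 h.2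

end Pool.Agent.GE
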